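import Pool.Agent.helper57.LQ.SpecC

set_option autoImplicit false

open Finset PowerSeries

noncomputable section

namespace Pool.Agent.LQ

theorem KSB_ex (p n : ℕ) (f : FF) : coeff n (ex p f) = if p ∣ n then coeff (n / p) f else 0 := by
  unfold ex
  rw [coeff_mk]

/-- divisors of the greatest common divisor -/
theorem KSB_sq {a b d : ℕ} (h1 : d ∣ b) (h2 : d ∣ a) : d ^ 2 ∣ b * a := by
  rw [pow_two]
  exact Nat.mul_dvd_mul h1 h2

theorem KSB_cop {b d s : ℕ} (hb : Odd b) (h1 : d ∣ b) : Nat.Coprime (2 ^ s) (d ^ 2) := by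
  have hd : Odd d := Odd.of_dvd_nat hb h1
  exact Nat.Coprime.pow s 2 (Nat.coprime_two_left.2 hd)

theorem KSB_T (hEXP : EXP_stmt) (a b s m0 : ℕ) (hb : Odd b) : coeff b (T a (DD ^ (2 ^ s * m0))) =
    if 2 ^ s ∣ a then coeff b (T (a / 2 ^ s) (DD ^ m0)) else 0 := by
  have h1 : DD ^ (2 ^ s * m0) = ex (2 ^ s) (DD ^ m0) := by
    rw [mul_comm, pow_mul]
    exact hEXP.2.2.1 s (DD ^ m0)
  have hs : 0 < 2 ^ s := pow_pos (by norm_num) s
  rw [h1, coeff_T]
  split_ifs with ha
  · obtain ⟨a', rfl⟩ := ha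
    rw [Nat.mul_div_cancel_left _ hs, coeff_T]
    have hg : Nat.gcd b (2 ^ s * a') = Nat.gcd b a' := by
      have : Nat.Coprime (2 ^ s) b := Nat.Coprime.pow_left s (Nat.coprime_two_left.2 hb)
      rw [Nat.gcd_comm, Nat.Coprime.gcd_mul_left_cancel a' this, Nat.gcd_comm]
    rw [hg]
    refine Finset.sum_congr rfl fun d hd => ?_
    have hd' : d ∣ Nat.gcd b a' := Nat.dvd_of_mem_divisors hd
    have h2 : d ^ 2 ∣ b * a' := KSB_sq (hd'.trans (Nat.gcd_dvd_left _ _)) (hd'.trans (Nat.gcd_dvd_right _ _))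
    have h3 : b * (2 ^ s * a') / d ^ 2 = 2 ^ s * (b * a' / d ^ 2) := by
      rw [← Nat.mul_div_assoc _ h2]
      congr 1
      ring
    rw [KSB_ex, h3, if_pos (Dvd.intro _ rfl), Nat.mul_div_cancel_left _ hs]
  · refine Finset.sum_eq_zero fun d hd => ?_
    have hd' : d ∣ Nat.gcd b a := Nat.dvd_of_mem_divisors hd
    have h2 : d ^ 2 ∣ b * a := KSB_sq (hd'.trans (Nat.gcd_dvd_left _ _)) (hd'.trans (Nat.gcd_dvd_right _ _))
    rw [KSB_ex, if_neg]
    intro h3
    apply ha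
    have h4 : 2 ^ s ∣ b * a := by
      have h5 : b * a / d ^ 2 * d ^ 2 = b * a := Nat.div_mul_cancel h2
      rw [← h5]
      exact h3.mul_right _
    have h6 : Nat.Coprime (2 ^ s) b := Nat.Coprime.pow_left s (Nat.coprime_two_left.2 hb)
    exact h6.dvd_of_dvd_mul_left h4

theorem KSB_even (hTGR : TGR_stmt) (a b m0 : ℕ) (hb : Odd b) (ha : Even a) (hm : Odd m0) :
    coeff b (T a (DD ^ m0)) = 0 := by
  rw [coeff_T]
  refine Finset.sum_eq_zero fun d hd => ?_
  have hd' : d ∣ Nat.gcd b a := Nat.dvd_of_mem_divisors hd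
  have h2 : d ^ 2 ∣ b * a := KSB_sq (hd'.trans (Nat.gcd_dvd_left _ _)) (hd'.trans (Nat.gcd_dvd_right _ _))
  by_contra hne
  have h3 := hTGR.2.2.2.2.1 m0 (b * a / d ^ 2) hne
  have h5 : b * a / d ^ 2 * d ^ 2 = b * a := Nat.div_mul_cancel h2
  have h6 : Even (b * a) := ha.mul_left b
  have h7 : Odd (d ^ 2) := (Odd.of_dvd_nat hb (hd'.trans (Nat.gcd_dvd_left _ _))).pow
  rw [← h5] at h6
  have h8 : Even (b * a / d ^ 2) := by
    rcases Nat.even_mul.1 h6 with h | h
    · exact h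
    · exact absurd h (Nat.not_even_iff_odd.2 h7)
  rw [Nat.even_iff] at h8
  rw [Nat.odd_iff] at hm
  omega

theorem KSB_A (hTGR : TGR_stmt) (m0 : ℕ) (A : ℕ → Polynomial (ZMod 2)) (hA : IsBD m0 A) (a j : ℕ)
    (ha : Even a) : coeff a (Polynomial.aeval DD (A j)) = 0 := by
  rw [Polynomial.aeval_eq_sum_range, map_sum]
  refine Finset.sum_eq_zero fun i _ => ?_
  rw [map_smul, smul_eq_mul]
  by_contra hne
  have h1 : (A j).coeff i ≠ 0 := left_ne_zero_of_mul hne
  have h2 : coeff a (DD ^ i) ≠ 0 := right_ne_zero_of_mul hne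
  have h3 := (hA.1 j i h1).1
  have h4 := hTGR.2.2.2.2.1 i a h2
  rw [Nat.even_iff] at ha
  rw [Nat.odd_iff] at h3
  omega

theorem KSB (hEXP : EXP_stmt) (hTGR : TGR_stmt) : KSB_stmt := by
  classical
  intro m0 A hm hA s P B n hP hPe hBo hno
  have hs : 0 < 2 ^ s := pow_pos (by norm_num) s
  have hQ : 0 < P * 2 ^ s := Nat.mul_pos hP hs
  have hB : 0 < B := hBo.pos
  -- the common index set
  have hbodd : ∀ a b : ℕ, P * a + B * b = n → Odd b := by
    intro a b h
    have h1 : Even (P * a) := hPe.mul_right a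
    by_contra hb
    rw [Nat.not_odd_iff_even] at hb
    have h2 : Even (B * b) := hb.mul_left B
    have h3 : Even n := h ▸ h1.add h2
    exact (Nat.not_even_iff_odd.2 hno) h3
  have hL : ∑ x ∈ (range (n + 1) ×ˢ range (n + 1)).filter
      (fun x => Odd x.1 ∧ P * 2 ^ s * x.1 + B * x.2 = n), coeff x.2 (T x.1 (DD ^ m0)) =
      KS (2 ^ s * m0) P B n := by
    unfold KS
    refine Finset.sum_of_injOn (fun x => (2 ^ s * x.1, x.2)) ?_ ?_ ?_ ?_
    · intro x _ y _ hxy
      obtain ⟨h1, h2⟩ : 2 ^ s * x.1 = 2 ^ s * y.1 ∧ x.2 = y.2 := Prod.mk.injEq _ _ _ _ ▸ hxy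
      exact Prod.ext (Nat.eq_of_mul_eq_mul_left hs h1) h2
    · intro x hx
      rw [Finset.mem_coe, Finset.mem_filter, Finset.mem_product, Finset.mem_range, Finset.mem_range] at hx
      obtain ⟨⟨hx1, hx2⟩, hx3, hx4⟩ := hx
      have hx5 : P * (2 ^ s * x.1) + B * x.2 = n := by rw [← hx4]; ring
      have hx6 := hbodd _ _ hx5
      have hx7 : 2 ^ s * x.1 ≤ P * (2 ^ s * x.1) := Nat.le_mul_of_pos_left _ hP
      rw [Finset.mem_coe, Finset.mem_filter, Finset.mem_product, Finset.mem_range, Finset.mem_range]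
      refine ⟨⟨?_, hx2⟩, Nat.mul_pos hs hx3.pos, hx6.pos, hx5⟩
      show 2 ^ s * x.1 < n + 1
      omega
    · intro y hy hny
      rw [Finset.mem_filter, Finset.mem_product, Finset.mem_range, Finset.mem_range] at hy
      obtain ⟨⟨hy1, hy2⟩, hy3, hy4, hy5⟩ := hy
      have hyo := hbodd _ _ hy5
      rw [KSB_T hEXP _ _ _ _ hyo]
      split_ifs with hd
      · obtain ⟨a', ha'⟩ := hd
        rw [ha', Nat.mul_div_cancel_left _ hs]
        by_cases hoa : Odd a'
        · exfalso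
          apply hny
          refine ⟨(a', y.2), ?_, Prod.ext ha'.symm rfl⟩
          rw [Finset.mem_coe, Finset.mem_filter, Finset.mem_product, Finset.mem_range, Finset.mem_range]
          have h1 : a' ≤ 2 ^ s * a' := Nat.le_mul_of_pos_left _ hs
          refine ⟨⟨?_, hy2⟩, hoa, ?_⟩
          · show a' < n + 1
            omega
          · show P * 2 ^ s * a' + B * y.2 = n
            rw [← hy5, ha']
            ring
        · exact KSB_even hTGR _ _ _ hyo (Nat.not_odd_iff_even.1 hoa) hm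
      · rfl
    · intro x hx
      rw [Finset.mem_filter, Finset.mem_product, Finset.mem_range, Finset.mem_range] at hx
      obtain ⟨⟨hx1, hx2⟩, hx3, hx4⟩ := hx
      have hx5 : P * (2 ^ s * x.1) + B * x.2 = n := by rw [← hx4]; ring
      have hx6 := hbodd _ _ hx5
      show coeff x.2 (T x.1 (DD ^ m0)) = coeff x.2 (T (2 ^ s * x.1) (DD ^ (2 ^ s * m0)))
      rw [KSB_T hEXP _ _ _ _ hx6, if_pos (Dvd.intro _ rfl), Nat.mul_div_cancel_left _ hs]
  have hR : ∑ x ∈ (range (n + 1) ×ˢ range (n + 1)).filter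
      (fun x => Odd x.1 ∧ P * 2 ^ s * x.1 + B * x.2 = n), coeff x.2 (T x.1 (DD ^ m0)) =
      coeff n (∑ j ∈ range (m0 + 1), ex (P * 2 ^ s) (Polynomial.aeval DD (A j)) * ex B (DD ^ j)) := by
    have h0 : coeff n (∑ j ∈ range (m0 + 1), ex (P * 2 ^ s) (Polynomial.aeval DD (A j)) * ex B (DD ^ j)) =
        ∑ p ∈ antidiagonal n, ∑ j ∈ range (m0 + 1),
          coeff p.1 (ex (P * 2 ^ s) (Polynomial.aeval DD (A j))) * coeff p.2 (ex B (DD ^ j)) := by
      rw [map_sum, Finset.sum_comm]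
      refine Finset.sum_congr rfl fun j _ => ?_
      rw [coeff_mul]
    rw [h0]
    refine Finset.sum_of_injOn (fun x => (P * 2 ^ s * x.1, B * x.2)) ?_ ?_ ?_ ?_
    · intro x _ y _ hxy
      obtain ⟨h1, h2⟩ : P * 2 ^ s * x.1 = P * 2 ^ s * y.1 ∧ B * x.2 = B * y.2 :=
        Prod.mk.injEq _ _ _ _ ▸ hxy
      exact Prod.ext (Nat.eq_of_mul_eq_mul_left hQ h1) (Nat.eq_of_mul_eq_mul_left hB h2)
    · intro x hx
      rw [Finset.mem_coe, Finset.mem_filter] at hx
      rw [Finset.mem_coe, HasAntidiagonal.mem_antidiagonal]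
      exact hx.2.2
    · intro y hy hny
      rw [HasAntidiagonal.mem_antidiagonal] at hy
      refine Finset.sum_eq_zero fun j _ => ?_
      rw [KSB_ex, KSB_ex]
      split_ifs with h1 h2
      · obtain ⟨a', ha'⟩ := h1
        obtain ⟨b', hb'⟩ := h2
        rw [ha', Nat.mul_div_cancel_left _ hQ]
        by_cases hoa : Odd a'
        · exfalso
          apply hny
          refine ⟨(a', b'), ?_, Prod.ext ha'.symm hb'.symm⟩
          have h3 : a' ≤ P * 2 ^ s * a' := Nat.le_mul_of_pos_left _ hQ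
          have h4 : b' ≤ B * b' := Nat.le_mul_of_pos_left _ hB
          rw [Finset.mem_coe, Finset.mem_filter, Finset.mem_product, Finset.mem_range, Finset.mem_range]
          refine ⟨⟨?_, ?_⟩, hoa, ?_⟩
          · show a' < n + 1
            omega
          · show b' < n + 1
            omega
          · show P * 2 ^ s * a' + B * b' = n
            rw [← ha', ← hb', hy]
        · rw [KSB_A hTGR m0 A hA a' j (Nat.not_odd_iff_even.1 hoa), zero_mul]
      · rw [mul_zero]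
      · rw [zero_mul]
      · rw [zero_mul]
    · intro x hx
      rw [Finset.mem_filter, Finset.mem_product, Finset.mem_range, Finset.mem_range] at hx
      obtain ⟨⟨hx1, hx2⟩, hx3, hx4⟩ := hx
      have hx5 : P * (2 ^ s * x.1) + B * x.2 = n := by rw [← hx4]; ring
      have hx6 := hbodd _ _ hx5
      show coeff x.2 (T x.1 (DD ^ m0)) = ∑ j ∈ range (m0 + 1),
          coeff (P * 2 ^ s * x.1) (ex (P * 2 ^ s) (Polynomial.aeval DD (A j))) * coeff (B * x.2) (ex B (DD ^ j))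
      rw [hA.2.2 x.1 x.2 hx3 hx6]
      refine Finset.sum_congr rfl fun j _ => ?_
      rw [KSB_ex, KSB_ex, if_pos (Dvd.intro _ rfl), if_pos (Dvd.intro _ rfl), Nat.mul_div_cancel_left _ hQ,
        Nat.mul_div_cancel_left _ hB]
  rw [← hL, hR]

end Pool.Agent.LQ
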